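import Pool.Agent.Lib.MP_524519_ag.DU5.AB.Iface

/-! # Durfee in characteristic `p`, chapter AB, module KEY -/

set_option autoImplicit false

namespace Pool.Agent.DU5.AB.H94

open MvPowerSeries Pool.Agent.DU5 Pool.Agent.DU5.AB

namespace KEY

section

variable {k A : Type} [Field k] [CommRing A] [Algebra k A]

/-- `ev x` as a homomorphism. -/
noncomputable def evH {n : ℕ} {x : Fin n → PowerSeries A}
    (hx : ∀ i, PowerSeries.constantCoeff (x i) = 0) : O k n →ₐ[k] PowerSeries A :=
  substAlgHom (hs hx)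

theorem evH_apply {n : ℕ} {x : Fin n → PowerSeries A}
    (hx : ∀ i, PowerSeries.constantCoeff (x i) = 0) (h : O k n) : ev x h = evH hx h := by
  unfold ev evH; rw [coe_substAlgHom]

theorem evH_X {n : ℕ} {x : Fin n → PowerSeries A}
    (hx : ∀ i, PowerSeries.constantCoeff (x i) = 0) (i : Fin n) :
    evH (k := k) hx (X i) = x i := by
  rw [← evH_apply]; unfold ev; exact subst_X (hs hx) i

end

theorem wilson (p : ℕ) [hp : Fact p.Prime] (k S : Type) [Field k] [CharP k p] [CommRing S]
    [Algebra k S] : ((p - 1).factorial : S) = -1 := by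
  have h0 : (p : S) = 0 := by
    rw [← map_natCast (algebraMap k S), CharP.cast_eq_zero, map_zero]
  have h1 : p ∣ (p - 1).factorial + 1 := by
    rw [← CharP.cast_eq_zero_iff (ZMod p) p]
    push_cast
    rw [ZMod.wilsons_lemma]; ring
  obtain ⟨q, hq⟩ := h1
  have h2 : (((p - 1).factorial + 1 : ℕ) : S) = 0 := by
    rw [hq]; push_cast; rw [h0, zero_mul]
  push_cast at h2
  exact eq_neg_of_add_eq_zero_left h2

theorem fin3 (i j : Fin 3) : j = i ∨ j = i + 1 ∨ j = i + 2 := by
  revert i j; decide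

end KEY

open KEY

theorem key (h1 : JACStatement) (h2 : DERSStatement) (h3 : PDRStatement) (h4 : EVFStatement) :
    KEYStatement := by
  intro p _ k K _ _ _ _ _ D hD x hx f h g hf hg b t i ht
  obtain ⟨hD1, t0, ht0⟩ := hD
  have hC := h2 p k K D t0 hD1 ht0
  have hp : p.Prime := Fact.out
  have hp1 : p - 1 + 1 = p := Nat.succ_pred_eq_of_pos hp.pos
  have hW : ((p - 1).factorial : PowerSeries K) = -1 := wilson p k (PowerSeries K)
  have hG : mn b * (h * f ^ (p - 1)) = (mn b * h) * f ^ (p - 1) := by ring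
  rw [hG]
  have e1 := h4 k K x hx f (mn b * h) i (p - 1) hf
  rw [h3 p k ((mn b * h) * f ^ (p - 1)) i, hW] at e1
  have e2 : ev x (mn b * h) * ev x (pderiv k i f) ^ (p - 1) =
      ∑ a : Fin 3 → Fin p, if (a i : ℕ) + 1 = p then
        ev x (pc p a ((mn b * h) * f ^ (p - 1))) ^ p *
          (x (i + 1) ^ (a (i + 1) : ℕ) * x (i + 2) ^ (a (i + 2) : ℕ)) else 0 := by
    have e3 : ev x (mn b * h) * ev x (pderiv k i f) ^ (p - 1) =
        - ev x (- ∑ a : Fin 3 → Fin p, if (a i : ℕ) + 1 = p then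
        pc p a ((mn b * h) * f ^ (p - 1)) ^ p *
          ((X (i + 1) : O k 3) ^ (a (i + 1) : ℕ) * X (i + 2) ^ (a (i + 2) : ℕ)) else 0) := by
      rw [e1]; ring
    rw [e3, evH_apply hx, map_neg, neg_neg, map_sum]
    refine Finset.sum_congr rfl fun a _ => ?_
    split_ifs with ha
    · rw [map_mul, map_mul, map_pow, map_pow, map_pow, evH_X, evH_X, evH_apply hx]
    · exact map_zero _
  have e3 : ev x (mn b * h) * jm D x i = ((∏ j, x j ^ (b j : ℕ)) * g) * ev x (pderiv k i f) := by
    have hb : ev x (mn b : O k 3) = ∏ j, x j ^ (b j : ℕ) := by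
      rw [evH_apply hx, mn, map_prod]
      refine Finset.prod_congr rfl fun j _ => ?_
      rw [map_pow, evH_X]
    rw [ev_mul hx, hb, mul_assoc, mul_assoc, hg i]
  have e4 : ev x (pderiv k i f) ^ p * ((∏ j, x j ^ (b j : ℕ)) * g) =
      ∑ a : Fin 3 → Fin p, if (a i : ℕ) + 1 = p then
        ev x (pc p a ((mn b * h) * f ^ (p - 1))) ^ p *
          (x (i + 1) ^ (a (i + 1) : ℕ) * x (i + 2) ^ (a (i + 2) : ℕ) *
            Jd (dd D) (x (i + 1)) (x (i + 2))) else 0 := by
    have e5 : ev x (pderiv k i f) ^ p * ((∏ j, x j ^ (b j : ℕ)) * g) =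
        (ev x (mn b * h) * ev x (pderiv k i f) ^ (p - 1)) * jm D x i := by
      have e6 : ev x (pderiv k i f) ^ p =
          ev x (pderiv k i f) ^ (p - 1) * ev x (pderiv k i f) := by
        rw [← pow_succ, hp1]
      rw [e6]
      linear_combination (-(ev x (pderiv k i f) ^ (p - 1))) * e3
    rw [e5, e2, Finset.sum_mul, jm_eq]
    refine Finset.sum_congr rfl fun a _ => ?_
    split_ifs with ha
    · ring
    · exact zero_mul _
  rw [← TT_pow, e4, TT_sum, Finset.sum_eq_single t]
  · rw [if_pos (ht i), TT_pow, (h1 p k (PowerSeries K) (dd D) _ hC (x (i + 1)) (x (i + 2))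
      (t (i + 1)) (t (i + 2)) (t (i + 1)).2 (t (i + 2)).2).1, jm_eq]
    have := ht (i + 1)
    have := ht (i + 2)
    omega
  · intro a _ hat
    split_ifs with ha
    · rw [TT_pow, (h1 p k (PowerSeries K) (dd D) _ hC (x (i + 1)) (x (i + 2))
        (a (i + 1)) (a (i + 2)) (a (i + 1)).2 (a (i + 2)).2).2, mul_zero]
      rintro ⟨q1, q2⟩
      apply hat
      funext j
      apply Fin.ext
      have := ht j
      rcases fin3 i j with r | r | r
      · subst r; omega
      · rw [r] at this ⊢; omega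
      · rw [r] at this ⊢; omega
    · exact TT_zero _ _
  · intro ht2
    exact absurd (Finset.mem_univ t) ht2

end Pool.Agent.DU5.AB.H94
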